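import Pool.Agent.L5helper59.ZT.RDefs

/-!
# Random real computation trees
-/

set_option autoImplicit false

open Finset MvPolynomial Filter Topology

namespace Pool.Agent.L5helper59.ZT

open Pool.Agent.L5helper88.Model

theorem eval_perm_real (m : ℕ) (x : Fin m × Fin m → ℝ) :
    eval x (perm ℝ m) = Matrix.permanent (Matrix.of fun i j => x (i, j)) := by
  unfold perm Matrix.permanent
  rw [map_sum]
  refine sum_congr rfl fun g _ => ?_
  rw [map_prod]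
  exact prod_congr rfl fun i _ => by simp

/-- the two kinds of real trees near the input `x0` -/
def KindsR (m : ℕ) (T : RTree (Fin m × Fin m) [] []) (x0 : Fin m × Fin m → ℝ) : Prop :=
  (∃ b : Bool, ∀ᶠ x in 𝓝 x0, T.run x = b) ∨
    ∃ (s' : List ℕ) (g : MvPolynomial (Fin m × Fin m) ℝ), g ≠ 0 ∧ Solved (g * perm ℝ m) s' ∧
      ∀ᶠ x in 𝓝 x0, ∃ s'' : List ℕ, T.sizes x = s'' ++ s'

open Classical in
theorem random_rtrees (m : ℕ) (i0 : Fin m × Fin m) (hp : Prime (perm ℝ m))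
    (T2 : ∀ T : RTree (Fin m × Fin m) [] [], ∃ Q : MvPolynomial (Fin m × Fin m) ℝ,
      ¬ perm ℝ m ∣ Q ∧ ∀ x0, eval x0 Q ≠ 0 → KindsR m T x0)
    (T3 : ∀ Q : MvPolynomial (Fin m × Fin m) ℝ, ¬ perm ℝ m ∣ Q →
      ∃ x : Fin m × Fin m → ℝ, eval x (perm ℝ m) = 0 ∧ eval x Q ≠ 0)
    (T3p : ¬ perm ℝ m ∣ pderiv i0 (perm ℝ m))
    (T4 : ∀ x0, eval x0 (perm ℝ m) = 0 → eval x0 (pderiv i0 (perm ℝ m)) ≠ 0 →
      ∀ U : Set (Fin m × Fin m → ℝ), U ∈ 𝓝 x0 →
      (∃ x ∈ U, 0 < eval x (perm ℝ m)) ∧ ∃ x ∈ U, eval x (perm ℝ m) < 0)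
    (Lg : List ℕ → Prop)
    (hLg : ∀ (s' : List ℕ) (g : MvPolynomial (Fin m × Fin m) ℝ), g ≠ 0 →
      Solved (g * perm ℝ m) s' → ∀ s'', Lg (s'' ++ s'))
    {Ω : Type} [Fintype Ω] (w : Ω → ℝ) (hw : ∀ ω, 0 ≤ w ω) (hw1 : ∑ ω, w ω = 1)
    (T : Ω → RTree (Fin m × Fin m) [] []) (E : MvPolynomial (Fin m × Fin m) ℝ)
    (hE : ¬ perm ℝ m ∣ E) (δ : ℝ)
    (hright : ∀ x, eval x E ≠ 0 → Matrix.permanent (Matrix.of fun i j => x (i, j)) ≠ 0 →
      1 / 2 + δ ≤ ∑ ω ∈ univ.filter (fun ω => RightSign (T ω) x), w ω) :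
    ∃ D : MvPolynomial (Fin m × Fin m) ℝ,
      (∃ x0 : Fin m × Fin m → ℝ, Matrix.permanent (Matrix.of fun i j => x0 (i, j)) = 0 ∧
        eval x0 D ≠ 0) ∧
      ∀ x0 : Fin m × Fin m → ℝ, Matrix.permanent (Matrix.of fun i j => x0 (i, j)) = 0 →
        eval x0 D ≠ 0 → ∀ᶠ x in 𝓝 x0,
          2 * δ ≤ ∑ ω ∈ univ.filter (fun ω => Lg ((T ω).sizes x)), w ω := by
  choose Q hQ hk using fun ω => T2 (T ω)
  set D : MvPolynomial (Fin m × Fin m) ℝ := E * pderiv i0 (perm ℝ m) * ∏ ω, Q ω with hD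
  have hDd : ¬ perm ℝ m ∣ D := by
    intro h
    rcases hp.dvd_or_dvd h with h | h
    · rcases hp.dvd_or_dvd h with h | h
      · exact hE h
      · exact T3p h
    · obtain ⟨ω, _, h2⟩ := (hp.dvd_finsetProd_iff _).1 h
      exact hQ ω h2
  refine ⟨D, ?_, fun x0 hx0 hxD => ?_⟩
  · obtain ⟨x0, h1, h2⟩ := T3 D hDd
    exact ⟨x0, by rwa [← eval_perm_real], h2⟩
  rw [← eval_perm_real] at hx0
  rw [hD, map_mul, map_mul, map_prod] at hxD
  have hxE : eval x0 E ≠ 0 := left_ne_zero_of_mul (left_ne_zero_of_mul hxD)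
  have hxp : eval x0 (pderiv i0 (perm ℝ m)) ≠ 0 := right_ne_zero_of_mul (left_ne_zero_of_mul hxD)
  have hxQ : ∀ ω, eval x0 (Q ω) ≠ 0 := fun ω =>
    prod_ne_zero_iff.1 (right_ne_zero_of_mul hxD) ω (mem_univ _)
  set B : Finset Ω := univ.filter fun ω => ∃ b : Bool, ∀ᶠ x in 𝓝 x0, (T ω).run x = b with hB
  set N : Finset Ω := univ.filter fun ω => ¬ ∃ b : Bool, ∀ᶠ x in 𝓝 x0, (T ω).run x = b with hN
  have hBN : ∑ ω ∈ B, w ω + ∑ ω ∈ N, w ω = 1 := by
    rw [← hw1]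
    exact sum_filter_add_sum_filter_not _ _ _
  -- the trees which are not constant near `x0`
  have h1 : ∀ ω ∈ N, ∀ᶠ x in 𝓝 x0, Lg ((T ω).sizes x) := by
    intro ω hω
    rw [hN, mem_filter] at hω
    rcases hk ω x0 (hxQ ω) with h | ⟨s', g, hg, hs, h⟩
    · exact absurd h hω.2
    · filter_upwards [h] with x hx
      obtain ⟨s'', h2⟩ := hx
      rw [h2]
      exact hLg s' g hg hs s''
  have h2 : ∀ᶠ x in 𝓝 x0, ∀ ω ∈ N, Lg ((T ω).sizes x) := (eventually_all_finset N).2 h1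
  have h3 : 2 * δ ≤ ∑ ω ∈ N, w ω := by
    have h4 : ∀ ω ∈ B, ∀ᶠ x in 𝓝 x0, (T ω).run x = (T ω).run x0 := by
      intro ω hω
      rw [hB, mem_filter] at hω
      obtain ⟨_, b, hb⟩ := hω
      have h5 := hb.self_of_nhds
      filter_upwards [hb] with x hx
      rw [hx, h5]
    have h5 : ∀ᶠ x in 𝓝 x0, ∀ ω ∈ B, (T ω).run x = (T ω).run x0 := (eventually_all_finset B).2 h4
    have h6 : ∀ᶠ x in 𝓝 x0, eval x E ≠ 0 :=
      (MvPolynomial.continuous_eval E).continuousAt.eventually_ne hxE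
    obtain ⟨⟨xp, hxp1, hxp2⟩, xn, hxn1, hxn2⟩ := T4 x0 hx0 hxp _ (h5.and h6)
    have key : ∀ y, (∀ ω ∈ B, (T ω).run y = (T ω).run x0) → eval y E ≠ 0 →
        eval y (perm ℝ m) ≠ 0 → ∀ v : Bool, (0 < eval y (perm ℝ m) ↔ v = true) →
        1 / 2 + δ ≤ ∑ ω ∈ N, w ω + ∑ ω ∈ B.filter (fun ω => (T ω).run x0 = v), w ω := by
      intro y hy1 hy2 hy3 v hv
      rw [eval_perm_real] at hy3
      refine (hright y hy2 hy3).trans ?_
      rw [← sum_union (by
        rw [Finset.disjoint_left]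
        intro ω h3 h4
        rw [hN, mem_filter] at h3
        rw [mem_filter, hB, mem_filter] at h4
        exact h3.2 h4.1.2)]
      refine sum_le_sum_of_subset_of_nonneg ?_ fun ω _ _ => hw ω
      intro ω hω
      rw [mem_filter] at hω
      rw [mem_union]
      by_cases hωB : ω ∈ B
      · right
        rw [mem_filter]
        refine ⟨hωB, ?_⟩
        have h3 := hω.2
        unfold RightSign at h3
        rw [← eval_perm_real, hv, hy1 ω hωB] at h3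
        exact Bool.eq_iff_iff.2 h3
      · left
        rw [hN, mem_filter]
        refine ⟨mem_univ _, fun h3 => hωB ?_⟩
        rw [hB, mem_filter]
        exact ⟨mem_univ _, h3⟩
    have k0 := key xp hxp1.1 hxp1.2 hxp2.ne' true (by simp [hxp2])
    have k1 := key xn hxn1.1 hxn1.2 hxn2.ne false (by simp [hxn2.le])
    have h7 : ∑ ω ∈ B.filter (fun ω => (T ω).run x0 = true), w ω +
        ∑ ω ∈ B.filter (fun ω => (T ω).run x0 = false), w ω = ∑ ω ∈ B, w ω := by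
      have h8 : B.filter (fun ω => (T ω).run x0 = false) =
          B.filter (fun ω => ¬ (T ω).run x0 = true) := by
        refine filter_congr fun ω _ => ?_
        simp
      rw [h8]
      exact sum_filter_add_sum_filter_not _ _ _
    linarith
  filter_upwards [h2] with x hx
  refine h3.trans (sum_le_sum_of_subset_of_nonneg ?_ fun ω _ _ => hw ω)
  intro ω hω
  rw [mem_filter]
  exact ⟨mem_univ _, hx ω hω⟩

end Pool.Agent.L5helper59.ZT
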