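import Pool.Agent.L5helper67.ZT.Path
import Pool.Agent.L5helper73.ZT.Zero
import Pool.Agent.L5helper40.ZT.Irr

/-!
# Random computation trees
-/

set_option autoImplicit false

open Finset MvPolynomial

namespace Pool.Agent.L5helper59.ZT

open Pool.Agent.L5helper88.Model

/-- the two kinds of trees -/
def Kinds (m : ℕ) (T : Tree (Fin m × Fin m) [] []) (Δ : MvPolynomial (Fin m × Fin m) ℂ) : Prop :=
  (¬ perm ℂ m ∣ Δ ∧ ∃ b : Bool, ∀ x, eval x Δ ≠ 0 → T.run x = b) ∨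
    ∃ (s' : List ℕ) (g : MvPolynomial (Fin m × Fin m) ℂ), g ≠ 0 ∧ Solved (g * perm ℂ m) s' ∧
      ∀ x, eval x Δ ≠ 0 → ∃ s'' : List ℕ, T.sizes x = s'' ++ s'

theorem tree_kinds (m : ℕ) (hm : 1 ≤ m) (T : Tree (Fin m × Fin m) [] []) :
    ∃ Δ : MvPolynomial (Fin m × Fin m) ℂ, Δ ≠ 0 ∧ Kinds m T Δ :=
  tree_generic m (perm_irreducible m hm).prime Systems.nil T

open Classical in
theorem random_trees (m : ℕ) (hm : 1 ≤ m)
    (L3 : ∀ T : Tree (Fin m × Fin m) [] [], ∃ Δ : MvPolynomial (Fin m × Fin m) ℂ, Δ ≠ 0 ∧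
      Kinds m T Δ) (Lg : List ℕ → Prop)
    (hLg : ∀ (s' : List ℕ) (g : MvPolynomial (Fin m × Fin m) ℂ), g ≠ 0 →
      Solved (g * perm ℂ m) s' → ∀ s'', Lg (s'' ++ s'))
    {Ω : Type} [Fintype Ω] (w : Ω → ℝ) (hw : ∀ ω, 0 ≤ w ω) (hw1 : ∑ ω, w ω = 1)
    (T : Ω → Tree (Fin m × Fin m) [] []) (E : MvPolynomial (Fin m × Fin m) ℂ)
    (hE : ¬ perm ℂ m ∣ E) (δ : ℝ)
    (hright : ∀ x, eval x E ≠ 0 → 1 / 2 + δ ≤ ∑ ω ∈ univ.filter (fun ω => RightOn (T ω) x), w ω) :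
    ∃ Δ : MvPolynomial (Fin m × Fin m) ℂ, Δ ≠ 0 ∧ ∀ x, eval x Δ ≠ 0 →
      2 * δ ≤ ∑ ω ∈ univ.filter (fun ω => Lg ((T ω).sizes x)), w ω := by
  have hirr := perm_irreducible m hm
  have hprime : Prime (perm ℂ m) := hirr.prime
  choose Δ hΔ hk using fun ω => L3 (T ω)
  refine ⟨∏ ω, Δ ω, prod_ne_zero_iff.2 fun ω _ => hΔ ω, fun x hx => ?_⟩
  set N : Finset Ω := univ.filter fun ω => ¬ (¬ perm ℂ m ∣ Δ ω ∧
    ∃ b : Bool, ∀ x, eval x (Δ ω) ≠ 0 → (T ω).run x = b) with hN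
  set B : Finset Ω := univ.filter fun ω => (¬ perm ℂ m ∣ Δ ω ∧
    ∃ b : Bool, ∀ x, eval x (Δ ω) ≠ 0 → (T ω).run x = b) with hB
  have hBN : ∑ ω ∈ B, w ω + ∑ ω ∈ N, w ω = 1 := by
    rw [← hw1]
    exact sum_filter_add_sum_filter_not _ _ _
  -- the trees which are not blind are expensive
  have h1 : ∑ ω ∈ N, w ω ≤ ∑ ω ∈ univ.filter (fun ω => Lg ((T ω).sizes x)), w ω := by
    refine sum_le_sum_of_subset_of_nonneg ?_ fun ω _ _ => hw ω
    intro ω hω
    rw [hN, mem_filter] at hω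
    rw [mem_filter]
    refine ⟨mem_univ _, ?_⟩
    rcases hk ω with h | ⟨s', g, hg, hs, h⟩
    · exact absurd h hω.2
    · have hxω : eval x (Δ ω) ≠ 0 := by
        rw [map_prod] at hx
        exact prod_ne_zero_iff.1 hx ω (mem_univ _)
      obtain ⟨s'', h2⟩ := h x hxω
      rw [h2]
      exact hLg s' g hg hs s''
  refine le_trans ?_ h1
  -- two inputs
  set D : MvPolynomial (Fin m × Fin m) ℂ := E * ∏ ω ∈ B, Δ ω with hD
  have hDd : ¬ perm ℂ m ∣ D := by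
    intro h
    rcases hprime.dvd_or_dvd h with h | h
    · exact hE h
    · obtain ⟨ω, hω, h2⟩ := (hprime.dvd_finsetProd_iff _).1 h
      rw [hB, mem_filter] at hω
      exact hω.2.1 h2
  have hD0 : D ≠ 0 := by
    intro h
    exact hDd (h ▸ dvd_zero _)
  obtain ⟨x0, hx0, hx0D⟩ := exists_zero_of_not_dvd (perm ℂ m) D hirr hDd
  obtain ⟨x1, hx1⟩ : ∃ x1, eval x1 (perm ℂ m * D) ≠ 0 := by
    by_contra h
    push Not at h
    exact mul_ne_zero hirr.ne_zero hD0 (MvPolynomial.funext fun y => by rw [h y, map_zero])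
  rw [map_mul] at hx1
  have hx1p : eval x1 (perm ℂ m) ≠ 0 := left_ne_zero_of_mul hx1
  have hx1D : eval x1 D ≠ 0 := right_ne_zero_of_mul hx1
  have hs : ∀ y, eval y D ≠ 0 → eval y E ≠ 0 ∧ ∀ ω ∈ B, eval y (Δ ω) ≠ 0 := by
    intro y hy
    rw [hD, map_mul, map_prod] at hy
    exact ⟨left_ne_zero_of_mul hy, fun ω hω => prod_ne_zero_iff.1 (right_ne_zero_of_mul hy) ω hω⟩
  have key : ∀ y, eval y D ≠ 0 → ∀ v : Bool, (eval y (perm ℂ m) = 0 ↔ v = true) →
      1 / 2 + δ ≤ ∑ ω ∈ N, w ω + ∑ ω ∈ B.filter (fun ω => (T ω).run x0 = v), w ω := by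
    intro y hy v hv
    have h2 := hright y (hs y hy).1
    refine h2.trans ?_
    rw [← sum_union (by
      rw [Finset.disjoint_left]
      intro ω h3 h4
      rw [hN, mem_filter] at h3
      rw [mem_filter, hB, mem_filter] at h4
      exact h3.2 h4.1.2)]
    refine sum_le_sum_of_subset_of_nonneg ?_ fun ω _ _ => hw ω
    intro ω hω
    rw [mem_filter] at hω
    rw [mem_union]
    by_cases hωB : ω ∈ B
    · right
      rw [mem_filter]
      refine ⟨hωB, ?_⟩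
      have h3 := hω.2
      unfold RightOn at h3
      rw [← eval_perm, hv] at h3
      have h4 := hωB
      rw [hB, mem_filter] at h4
      obtain ⟨_, _, b, hb⟩ := h4
      have h5 : (T ω).run y = b := hb y ((hs y hy).2 ω hωB)
      have h6 : (T ω).run x0 = b := hb x0 ((hs x0 hx0D).2 ω hωB)
      rw [h6]
      rw [h5] at h3
      exact Bool.eq_iff_iff.2 h3
    · left
      rw [hN, mem_filter]
      refine ⟨mem_univ _, fun h3 => hωB ?_⟩
      rw [hB, mem_filter]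
      exact ⟨mem_univ _, h3⟩
  have k0 := key x0 hx0D true (by simp [hx0])
  have k1 := key x1 hx1D false (by simp [hx1p])
  have h7 : ∑ ω ∈ B.filter (fun ω => (T ω).run x0 = true), w ω +
      ∑ ω ∈ B.filter (fun ω => (T ω).run x0 = false), w ω = ∑ ω ∈ B, w ω := by
    have h8 : B.filter (fun ω => (T ω).run x0 = false) =
        B.filter (fun ω => ¬ (T ω).run x0 = true) := by
      refine filter_congr fun ω _ => ?_
      simp
    rw [h8]
    exact sum_filter_add_sum_filter_not _ _ _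
  linarith

end Pool.Agent.L5helper59.ZT
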