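import Pool.Agent.L5helper88.NS.Final
import Pool.Agent.L5helper59.ZT.Random
import Pool.Agent.L5helper59.ZT.RRandom
import Pool.Agent.L5helper30.ZT.Close
import Pool.Agent.L5helper40.ZT.Irr
import Pool.Agent.L5helper73.ZT.Zero
import Pool.Agent.L5helper73.ZT.Mult
import Pool.Agent.L5helper39.ZT.Generic
import Pool.Agent.L5helper88.ZT.Local
import Pool.Agent.L5helper5.ZT.Norm
import Pool.Agent.L5helper41.ZT.Subst
import Pool.Agent.L5helper9.ZT.BddMul
import Pool.Agent.L5helper67.ZT.Num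

/-!
# The parts together
-/

set_option autoImplicit false

open Finset MvPolynomial Filter

namespace Pool.Agent.L5helper59.ZT

open L5helper59.DC L5lead.NC L5helper96.NC L5helper96.Cub L5helper59.NC L5helper11.CL
  Pool.Agent.L5helper60.LA Pool.Agent.L5helper88.Model Pool.Agent.L5helper88.CP
  Pool.Agent.L5helper88.NS

theorem crit_mult {σ : Type} [Fintype σ] [DecidableEq σ] (h : MvPolynomial σ ℂ) (c : σ → ℂ)
    (S : Finset (σ → ℂ)) (hS : Crit h c S) (g : MvPolynomial (Option σ) ℂ) (hg : g ≠ 0) :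
    ∃ (c' : Option (Option σ) → ℂ) (S' : Finset (Option (Option σ) → ℂ)), S'.card = S.card ∧
      Crit (X none * rename some (g * gr h)) c' S' :=
  crit_mult_of (fun h c S hS q hq => crit_generic h c S hS q hq)
    (fun h c S hS e he g hg => crit_local h c S hS e he g hg) h c S hS g hg

theorem exists_subst_crit {σ : Type} [Fintype σ] [DecidableEq σ] (h : MvPolynomial σ ℂ)
    (c : σ → ℂ) (S : Finset (σ → ℂ)) (hS : Crit h c S) (Gk : ℕ → MvPolynomial (Option σ) ℂ)
    (Δ : ℕ) (hdeg : ∀ k, (Gk k).totalDegree ≤ Δ) (hlim : CT Gk (gr h)) (m₀ m : ℕ) (hm : m₀ ≤ m)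
    (hperm : ∀ k, ∃ (M₀ : Matrix (Fin m₀) (Fin m₀) (MvPolynomial (Option σ) ℂ)) (K : ℂ), K ≠ 0 ∧
      (∀ x y, (M₀ x y).totalDegree ≤ 1) ∧ M₀.permanent = C K * Gk k)
    (g : MvPolynomial (Fin m × Fin m) ℂ) (hg : g ≠ 0) :
    ∃ (a : Option (Fin m × Fin m) → ℂ) (b : Option (Fin m × Fin m) → Option (Option σ) → ℂ)
      (c' : Option (Option σ) → ℂ) (S' : Finset (Option (Option σ) → ℂ)), S'.card = S.card ∧
      Crit (aeval (fun j => aff (a j) (b j)) (X none * rename some (g * permPoly m))) c' S' :=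
  exists_subst_crit_of (fun σ _ _ h c S hS g hg => crit_mult h c S hS g hg)
    (fun τ _ _ g D hd hg => exists_normalised g D hd hg)
    (fun τ σ _ _ _ _ P g hg a b ε hε => exists_close P g hg a b ε hε) h c S hS Gk Δ hdeg hlim m₀ m
    hm hperm g hg

end Pool.Agent.L5helper59.ZT
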