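import Pool.Agent.L5helper88.NS.Model

/-!
# Computation trees with zero tests
-/

set_option autoImplicit false

open MvPolynomial

namespace Pool.Agent.L5helper59.ZT

open Pool.Agent.L5helper88.Model

/-- Computation trees with free zero tests. The list `l` contains the results obtained so far, the
list `s` the sizes of the systems of linear equations solved so far, the last one first. A node
ends the computation with an answer, or solves one more system of linear equations (as in
`Systems`), or tests whether a polynomial, which is a linear combination of the results so far, of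
the variables and of `1`, is zero at the input, and branches. -/
inductive Tree (σ : Type) : List (RatFun ℂ σ) → List ℕ → Type
  | leaf (l : List (RatFun ℂ σ)) (s : List ℕ) (answer : Bool) : Tree σ l s
  | solve (l : List (RatFun ℂ σ)) (s : List ℕ) (n : ℕ) (B : Matrix (Fin n) (Fin n) (RatFun ℂ σ))
      (β y : Fin n → RatFun ℂ σ) (hB : ∀ i j, B i j ∈ Lin l) (hβ : ∀ i, β i ∈ Quad l)
      (hdet : B.det ≠ 0) (hy : ∀ i, ∑ j, B i j * y j = β i)
      (next : Tree σ (List.ofFn y ++ l) (n :: s)) : Tree σ l s
  | test (l : List (RatFun ℂ σ)) (s : List ℕ) (f : MvPolynomial σ ℂ) (hf : toRat f ∈ Lin l)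
      (zero nonzero : Tree σ l s) : Tree σ l s

open Classical in
/-- The answer of a tree on the input `x`. -/
noncomputable def Tree.run {σ : Type} (x : σ → ℂ) :
    {l : List (RatFun ℂ σ)} → {s : List ℕ} → Tree σ l s → Bool
  | _, _, .leaf _ _ answer => answer
  | _, _, .solve _ _ _ _ _ _ _ _ _ _ next => next.run x
  | _, _, .test _ _ f _ zero nonzero => if eval x f = 0 then zero.run x else nonzero.run x

open Classical in
/-- The sizes of the systems solved on the input `x`, the last one first. -/
noncomputable def Tree.sizes {σ : Type} (x : σ → ℂ) :
    {l : List (RatFun ℂ σ)} → {s : List ℕ} → Tree σ l s → List ℕ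
  | _, s, .leaf _ _ _ => s
  | _, _, .solve _ _ _ _ _ _ _ _ _ _ next => next.sizes x
  | _, _, .test _ _ f _ zero nonzero => if eval x f = 0 then zero.sizes x else nonzero.sizes x

/-- The tree decides for every complex `m × m` matrix whether its permanent is zero. -/
def Decides {m : ℕ} (T : Tree (Fin m × Fin m) [] []) : Prop :=
  ∀ x : Fin m × Fin m → ℂ, T.run x = true ↔
    Matrix.permanent (Matrix.of fun i j => x (i, j)) = 0

/-- The tree finds out whether the permanent of the matrix `x` is zero. -/
def RightOn {m : ℕ} (T : Tree (Fin m × Fin m) [] []) (x : Fin m × Fin m → ℂ) : Prop :=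
  T.run x = true ↔ Matrix.permanent (Matrix.of fun i j => x (i, j)) = 0

end Pool.Agent.L5helper59.ZT
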