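import Mathlib

/-!
# Probabilities for finite distributions
-/

set_option autoImplicit false

open Finset

namespace Pool.Agent.L5helper59.ZT

open Classical in
/-- The probability of `P` for the distribution `w` on a finite set. -/
noncomputable def prob {Ω : Type} [Fintype Ω] (w : Ω → ℝ) (P : Ω → Prop) : ℝ :=
  ∑ ω ∈ univ.filter P, w ω

/-- `w` is a probability distribution. -/
def IsProb {Ω : Type} [Fintype Ω] (w : Ω → ℝ) : Prop := (∀ ω, 0 ≤ w ω) ∧ ∑ ω, w ω = 1

open Classical in
theorem prob_mono {Ω : Type} [Fintype Ω] {w : Ω → ℝ} (hw : IsProb w) {P Q : Ω → Prop}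
    (h : ∀ ω, P ω → Q ω) : prob w P ≤ prob w Q := by
  unfold prob
  refine sum_le_sum_of_subset_of_nonneg ?_ fun ω _ _ => hw.1 ω
  intro ω hω
  rw [mem_filter] at hω ⊢
  exact ⟨hω.1, h ω hω.2⟩

end Pool.Agent.L5helper59.ZT
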