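import Pool.Agent.L5helper59.ZT.Main
import Pool.Agent.L5helper59.ZT.Random
import Pool.Agent.L5helper59.ZT.RRandom
import Pool.Agent.L5helper59.ZT.Prob
import Pool.Agent.L5helper30.ZT.App
import Pool.Agent.L5helper33.ZT.RPath
import Pool.Agent.L5helper5.ZT.RZero
import Pool.Agent.L5helper49.ZT.IrrField
import Pool.Agent.L5helper83.ZT.RSign
import Pool.Agent.L5helper67.NC.CubicAll

/-!
# Nonzero multiples of the permanent and computation trees, all parts together
-/

set_option autoImplicit false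

open Finset MvPolynomial Filter Topology

namespace Pool.Agent.L5helper59.ZT

open Pool.Agent.L5helper88.Model

/-- the first bound for the list of sizes `s` -/
def First (m : ℕ) (s : List ℕ) : Prop :=
  ∀ t : List (ℕ × ℕ), (∀ a ∈ t, 1 ≤ a.2) → t.map Prod.fst = s →
    ((m : ℝ) / 2 ^ 14) ^ (m ^ 2) ≤
      (t.map fun a => (a.2 : ℝ) ^ (m ^ 2) * (1 + 1 / (a.2 : ℝ)) ^ (2 ^ 21 * a.1)).prod

theorem mult_first (m : ℕ) (hm : 1 ≤ m) (g : MvPolynomial (Fin m × Fin m) ℂ) (hg : g ≠ 0)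
    (s : List ℕ) (h : SolvedApproximately (g * perm ℂ m) s) : First m s := fun t ht hts =>
  mult_bound' (L5helper67.NC.permSize3 (L5helper67.NC.Net.multi L5helper34.NC.gateStmt)) m hm g hg s
    h t ht hts

theorem append_first (m : ℕ) (s'' s' : List ℕ) (h : First m s') : First m (s'' ++ s') :=
  fun t ht hts => large_append m s'' s' h t ht hts

theorem mult_first_complex (m : ℕ) (hm : 1 ≤ m) (s' : List ℕ)
    (g : MvPolynomial (Fin m × Fin m) ℂ) (hg : g ≠ 0) (h : Solved (g * perm ℂ m) s')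
    (s'' : List ℕ) : First m (s'' ++ s') :=
  append_first m s'' s' (mult_first m hm g hg s'
    (Pool.Agent.L5helper88.NS.approximately_of_solved h))

theorem mult_first_real (m : ℕ) (hm : 1 ≤ m) (s' : List ℕ)
    (g : MvPolynomial (Fin m × Fin m) ℝ) (hg : g ≠ 0) (h : Solved (g * perm ℝ m) s')
    (s'' : List ℕ) : First m (s'' ++ s') := by
  have h1 := Pool.Agent.L5helper88.Model.Solved.map (algebraMap ℝ ℂ) h
  rw [map_mul, Pool.Agent.L5helper88.Model.map_perm] at h1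
  refine mult_first_complex m hm s' _ ?_ h1 s''
  intro h0
  apply hg
  apply MvPolynomial.map_injective (algebraMap ℝ ℂ) (algebraMap ℝ ℂ).injective
  rw [h0, map_zero]

theorem complex_trees (m : ℕ) (hm : 1 ≤ m) {Ω : Type} [Fintype Ω] (w : Ω → ℝ) (hw : IsProb w)
    (T : Ω → Tree (Fin m × Fin m) [] []) (E : MvPolynomial (Fin m × Fin m) ℂ)
    (hE : ¬ perm ℂ m ∣ E) (δ : ℝ)
    (hright : ∀ x, eval x E ≠ 0 → 1 / 2 + δ ≤ prob w fun ω => RightOn (T ω) x) :
    ∃ Δ : MvPolynomial (Fin m × Fin m) ℂ, Δ ≠ 0 ∧ ∀ x, eval x Δ ≠ 0 →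
      2 * δ ≤ prob w fun ω => First m ((T ω).sizes x) :=
  random_trees m hm (tree_kinds m hm) (First m)
    (fun s' g hg h s'' => mult_first_complex m hm s' g hg h s'') w hw.1 hw.2 T E hE δ hright

theorem real_trees (m : ℕ) (hm : 1 ≤ m) {Ω : Type} [Fintype Ω] (w : Ω → ℝ) (hw : IsProb w)
    (T : Ω → RTree (Fin m × Fin m) [] []) (E : MvPolynomial (Fin m × Fin m) ℝ)
    (hE : ¬ perm ℝ m ∣ E) (δ : ℝ)
    (hright : ∀ x, eval x E ≠ 0 → Matrix.permanent (Matrix.of fun i j => x (i, j)) ≠ 0 →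
      1 / 2 + δ ≤ prob w fun ω => RightSign (T ω) x) :
    ∃ D : MvPolynomial (Fin m × Fin m) ℝ,
      (∃ x0 : Fin m × Fin m → ℝ, Matrix.permanent (Matrix.of fun i j => x0 (i, j)) = 0 ∧
        eval x0 D ≠ 0) ∧
      ∀ x0 : Fin m × Fin m → ℝ, Matrix.permanent (Matrix.of fun i j => x0 (i, j)) = 0 →
        eval x0 D ≠ 0 → ∀ᶠ x in 𝓝 x0, 2 * δ ≤ prob w fun ω => First m ((T ω).sizes x) := by
  have hp : Prime (perm ℝ m) := (perm_irreducible_field ℝ m hm).prime
  have i0 : Fin m × Fin m := (⟨0, hm⟩, ⟨0, hm⟩)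
  exact random_rtrees m i0 hp (rtree_local m hp) (exists_real_zero m hm hp)
    (perm_not_dvd_pderiv m hm i0) (perm_sign_change m i0) (First m)
    (fun s' g hg h s'' => mult_first_real m hm s' g hg h s'') w hw.1 hw.2 T E hE δ hright

end Pool.Agent.L5helper59.ZT
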