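import Pool.Agent.L5helper59.ZT.All

/-!
# Nonzero multiples of the permanent
-/

set_option autoImplicit false

open Finset MvPolynomial Filter

namespace Pool.Agent.L5helper59.ZT

open L5helper59.DC L5lead.NC L5helper96.NC L5helper96.Cub L5helper59.NC L5helper11.CL
  Pool.Agent.L5helper60.LA Pool.Agent.L5helper88.Model Pool.Agent.L5helper88.CP
  Pool.Agent.L5helper88.NS

theorem ct_rename {τ ι : Type} [Fintype τ] [DecidableEq τ] (f : τ → ι) (D : ℕ)
    (P : MvPolynomial τ ℂ) (Pk : ℕ → MvPolynomial τ ℂ) (hdeg : ∀ k, (Pk k).totalDegree ≤ D)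
    (hlim : CT Pk P) : CT (fun k => rename f (Pk k)) (rename f P) := by
  have h := CT.aeval (fun _ => fun i => (X (f i) : MvPolynomial ι ℂ)) (fun i => X (f i))
    (fun _ => CT.const _) D P Pk hdeg hlim
  have e : ∀ p : MvPolynomial τ ℂ, aeval (fun i => (X (f i) : MvPolynomial ι ℂ)) p =
      rename f p := by
    intro p
    induction p using MvPolynomial.induction_on with
    | C a => rw [aeval_C, rename_C]; rfl
    | add p q hp hq => rw [map_add, map_add, hp, hq]
    | mul_X p i hp => rw [map_mul, map_mul, hp, aeval_X, rename_X]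
  simpa only [e] using h

theorem gr_tg {L V : Type} [Fintype L] [Fintype V] [DecidableEq L] [DecidableEq V] (q : ℕ) :
    gr (C (-1) * tg L V (q + 1)) = (X none + ∑ l : L, ∑ I ∈ powersetCard (q + 1) (univ : Finset V),
      ∏ i ∈ I, X (some (l, i)) : MvPolynomial (Option (L × V)) ℂ) := by
  unfold gr tg
  rw [map_mul, rename_C, map_neg, map_one, neg_one_mul, sub_neg_eq_add, map_sum]
  congr 1
  refine sum_congr rfl fun l _ => ?_
  rw [map_sum]
  refine sum_congr rfl fun I _ => ?_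
  rw [map_prod]
  exact prod_congr rfl fun i _ => by rw [rename_X]

theorem mult_bound' (hC3 : PermSizeStmt size3) (m : ℕ) (hm : 1 ≤ m)
    (g : MvPolynomial (Fin m × Fin m) ℂ) (hg : g ≠ 0) (s : List ℕ)
    (h : SolvedApproximately (g * perm ℂ m) s) (t : List (ℕ × ℕ)) (ht : ∀ a ∈ t, 1 ≤ a.2)
    (hts : t.map Prod.fst = s) :
    ((m : ℝ) / 2 ^ 14) ^ (m ^ 2) ≤
      (t.map fun a => (a.2 : ℝ) ^ (m ^ 2) * (1 + 1 / (a.2 : ℝ)) ^ (2 ^ 21 * a.1)).prod := by
  obtain ⟨P, D, h1, h2, h3⟩ := h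
  refine zt_num m hm t ht fun L hL => ?_
  have hN : 2 ^ (L + 1) = 2 * 2 ^ L := by rw [pow_succ]; ring
  have hq : 1 ≤ 2 ^ L := Nat.one_le_two_pow
  have : NeZero (2 ^ L) := ⟨by omega⟩
  have hsize : size3 (L + 1) (2 ^ L + 1) ≤ m :=
    (size3_le (L + 1) (2 ^ L) hN (by omega)).trans hL
  obtain ⟨c, S, hScard, hS⟩ := crit_tg (L := Fin (2 ^ (L + 1))) (V := Fin (2 ^ (L + 1)))
    (2 ^ L) (by rw [Fintype.card_fin, hN])
  have hS' := crit_smul _ (-1) (by norm_num) c S hS
  obtain ⟨a, b, c', S', hS'card, hcrit⟩ := exists_subst_crit _ _ S hS'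
    (fun k => F2t (2 ^ (L + 1)) (2 ^ L + 1) (1 / ((k : ℂ) + 1))) (2 ^ L + 1 + 1)
    (fun k => L5helper79.NC.F2t_degree _ _ _)
    (by
      intro d
      have h1 := L5helper79.NC.F2t_tendsto (2 ^ (L + 1)) (2 ^ L + 1) d
      rw [L5helper79.NC.F2t_zero (2 ^ (L + 1)) (2 ^ L + 1)] at h1
      rw [gr_tg]
      exact h1)
    (size3 (L + 1) (2 ^ L + 1)) m hsize
    (by
      intro k
      obtain ⟨A, K, hK, hA, hp⟩ := hC3 (2 ^ L + 1) (L + 1) _ (by omega) (1 / ((k : ℝ) + 1))
        (by positivity) rfl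
      refine ⟨A, K, hK, hA, ?_⟩
      rw [hp]
      push_cast
      rfl) g hg
  have key := size_bdd (σ := Option (Option (Fin (2 ^ (L + 1)) × Fin (2 ^ (L + 1)))))
    (X none * rename some (g * permPoly m)) (fun k => X none * rename some (P k)) (1 + D)
    (fun k => (totalDegree_mul _ _).trans (add_le_add (totalDegree_X _).le
      ((totalDegree_rename_le _ _).trans (h2 k))))
    ((CT.const _).mul (ct_rename some D _ P h2 h3)) _
    (fun k => by
      obtain ⟨l, h4, h5⟩ := h1 k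
      exact bdd_mul_var h4.sys t ht hts (P k) h5) a b c' S' hcrit
  rw [hS'card, hScard] at key
  have h6 : Fintype.card (Option (Option (Fin (2 ^ (L + 1)) × Fin (2 ^ (L + 1))))) =
      2 * 2 ^ L * (2 * 2 ^ L) + 2 := by
    rw [Fintype.card_option, Fintype.card_option, Fintype.card_prod, Fintype.card_fin, pow_succ]
    ring
  rw [h6, Fintype.card_fin, hN] at key
  exact_mod_cast key

end Pool.Agent.L5helper59.ZT
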