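import Pool.Agent.L5helper88.NS.Model

/-!
# Real computation trees with comparisons
-/

set_option autoImplicit false

open MvPolynomial

namespace Pool.Agent.L5helper59.ZT

open Pool.Agent.L5helper88.Model

/-- Real computation trees with free comparisons. The list `l` contains the results obtained so
far, the list `s` the sizes of the systems of linear equations solved so far, the last one first. A
node ends the computation with an answer, or solves one more system of linear equations (as in
`Systems`), or finds the sign at the input of a polynomial which is a linear combination of the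
results so far, of the variables and of `1`, and branches. -/
inductive RTree (σ : Type) : List (RatFun ℝ σ) → List ℕ → Type
  | leaf (l : List (RatFun ℝ σ)) (s : List ℕ) (answer : Bool) : RTree σ l s
  | solve (l : List (RatFun ℝ σ)) (s : List ℕ) (n : ℕ) (B : Matrix (Fin n) (Fin n) (RatFun ℝ σ))
      (β y : Fin n → RatFun ℝ σ) (hB : ∀ i j, B i j ∈ Lin l) (hβ : ∀ i, β i ∈ Quad l)
      (hdet : B.det ≠ 0) (hy : ∀ i, ∑ j, B i j * y j = β i)
      (next : RTree σ (List.ofFn y ++ l) (n :: s)) : RTree σ l s
  | sign (l : List (RatFun ℝ σ)) (s : List ℕ) (f : MvPolynomial σ ℝ) (hf : toRat f ∈ Lin l)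
      (neg zero pos : RTree σ l s) : RTree σ l s

open Classical in
/-- The answer of a tree on the input `x`. -/
noncomputable def RTree.run {σ : Type} (x : σ → ℝ) :
    {l : List (RatFun ℝ σ)} → {s : List ℕ} → RTree σ l s → Bool
  | _, _, .leaf _ _ answer => answer
  | _, _, .solve _ _ _ _ _ _ _ _ _ _ next => next.run x
  | _, _, .sign _ _ f _ neg zero pos =>
      if eval x f < 0 then neg.run x else if eval x f = 0 then zero.run x else pos.run x

open Classical in
/-- The sizes of the systems solved on the input `x`, the last one first. -/
noncomputable def RTree.sizes {σ : Type} (x : σ → ℝ) :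
    {l : List (RatFun ℝ σ)} → {s : List ℕ} → RTree σ l s → List ℕ
  | _, s, .leaf _ _ _ => s
  | _, _, .solve _ _ _ _ _ _ _ _ _ _ next => next.sizes x
  | _, _, .sign _ _ f _ neg zero pos =>
      if eval x f < 0 then neg.sizes x else if eval x f = 0 then zero.sizes x else pos.sizes x

/-- The tree finds out whether the permanent of the matrix `x` is positive. -/
def RightSign {m : ℕ} (T : RTree (Fin m × Fin m) [] []) (x : Fin m × Fin m → ℝ) : Prop :=
  T.run x = true ↔ 0 < Matrix.permanent (Matrix.of fun i j => x (i, j))

end Pool.Agent.L5helper59.ZT
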